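import Pool.Agent.H43.DPC.Targets

/-!
# The separated part of the moment is an integral (SEP)
-/

set_option autoImplicit false

open MeasureTheory SchwartzMap Filter Topology
open scoped ENNReal ContDiff

namespace Pool.Agent.H14.DPC

open Pool.Agent.H43.DPC

theorem tsupport_cut_subset (hLAT : T_LAT) {d : ℕ} {t : ℝ} (ht : 0 < t) (k : Fin d → ℤ)
    (f : S d) : _root_.tsupport (cut t k f) ⊆ _root_.tsupport (cell t k) := by
  refine closure_mono ?_
  intro x hx
  rw [Function.mem_support] at hx ⊢
  rw [hLAT.cut_apply d t ht k f x] at hx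
  exact left_ne_zero_of_mul hx

theorem compact_cut (hLAT : T_LAT) {d : ℕ} {t : ℝ} (ht : 0 < t) (k : Fin d → ℤ)
    (f : S d) (hf : HasCompactSupport f) : HasCompactSupport (cut t k f) := by
  refine hf.mono ?_
  intro x hx
  rw [Function.mem_support] at hx ⊢
  rw [hLAT.cut_apply d t ht k f x] at hx
  exact right_ne_zero_of_mul hx

theorem integrable_of_disjoint {d n : ℕ} {s : (Fin n → V d) → ℝ}
    (hs : ContinuousOn s (Diag d n)ᶜ) (g : Fin n → S d) (hg : ∀ i, HasCompactSupport (g i))
    (hd : ∀ i j, i ≠ j → Disjoint (_root_.tsupport (g i)) (_root_.tsupport (g j))) :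
    Integrable (fun x : Fin n → V d => s x * ∏ i, g i (x i)) := by
  set K : Set (Fin n → V d) := Set.pi Set.univ (fun i => _root_.tsupport (g i)) with hK
  have hKc : IsCompact K := isCompact_univ_pi fun i => hg i
  have hKD : K ⊆ (Diag d n)ᶜ := by
    rintro x hx ⟨i, j, hij, hxij⟩
    have h1 : x i ∈ _root_.tsupport (g i) := hx i (Set.mem_univ i)
    have h2 : x j ∈ _root_.tsupport (g j) := hx j (Set.mem_univ j)
    rw [← hxij] at h2
    exact Set.disjoint_left.mp (hd i j hij) h1 h2
  have hG : Continuous (fun x : Fin n → V d => ∏ i, g i (x i)) :=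
    continuous_finsetProd _ fun i _ => (g i).continuous.comp (continuous_apply i)
  have h1 : IntegrableOn (fun x : Fin n → V d => s x * ∏ i, g i (x i)) K :=
    ((hs.mono hKD).mul hG.continuousOn).integrableOn_compact hKc
  have h2 : Function.support (fun x : Fin n → V d => s x * ∏ i, g i (x i)) ⊆ K := by
    intro x hx i _
    rw [Function.mem_support] at hx
    have h3 := right_ne_zero_of_mul hx
    rw [Finset.prod_ne_zero_iff] at h3
    exact subset_closure (h3 i (Finset.mem_univ i))
  exact (integrableOn_iff_integrable_of_support_subset h2).mp h1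

theorem SEP (hLAT : T_LAT) (_hWSP : T_WSP) : T_SEP := by
  intro d μ n s h1 R m f hf
  have ht : (0 : ℝ) < ((m : ℝ) + 1)⁻¹ := by positivity
  set t : ℝ := ((m : ℝ) + 1)⁻¹ with htdef
  have hs : ContinuousOn s (Diag d n)ᶜ := h1.smooth.continuousOn
  have hdis : ∀ k ∈ sepBox d n (R * (m + 1)), ∀ i j, i ≠ j →
      Disjoint (_root_.tsupport (cut t (k i) (f i))) (_root_.tsupport (cut t (k j) (f j))) := by
    intro k hk i j hij
    have h2 := (Finset.mem_filter.mp hk).2 i j hij
    exact (hLAT.disjoint d t ht (k i) (k j) h2).mono (tsupport_cut_subset hLAT ht _ _)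
      (tsupport_cut_subset hLAT ht _ _)
  have hcs : ∀ (k : Fin n → Fin d → ℤ) (i : Fin n), HasCompactSupport (cut t (k i) (f i)) :=
    fun k i => compact_cut hLAT ht (k i) (f i) (hf i)
  have hint : ∀ k ∈ sepBox d n (R * (m + 1)),
      Integrable (fun x : Fin n → V d => s x * ∏ i, cut t (k i) (f i) (x i)) :=
    fun k hk => integrable_of_disjoint hs (fun i => cut t (k i) (f i)) (hcs k) (hdis k hk)
  have hfun : (fun x : Fin n → V d => s x * (∏ i, f i (x i)) * wsep d n R m x) =
      (fun x => ∑ k ∈ sepBox d n (R * (m + 1)), s x * ∏ i, cut t (k i) (f i) (x i)) := by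
    funext x
    rw [wsep, Finset.mul_sum]
    refine Finset.sum_congr rfl fun k _ => ?_
    have h3 : ∀ i, cut t (k i) (f i) (x i) = cell t (k i) (x i) * f i (x i) :=
      fun i => hLAT.cut_apply d t ht (k i) (f i) (x i)
    rw [Finset.prod_congr rfl (fun i _ => h3 i), Finset.prod_mul_distrib, ← htdef]
    ring
  rw [hfun]
  refine ⟨integrable_finsetSum _ fun k hk => (hint k hk).integrableOn, ?_⟩
  rw [integral_finsetSum _ fun k hk => (hint k hk).integrableOn]
  refine Finset.sum_congr rfl fun k hk => ?_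
  exact h1.eq (fun i => cut t (k i) (f i)) (hcs k) (hdis k hk)

end Pool.Agent.H14.DPC
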